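import Mathlib

/-!
Randomized `F_2`-linear sketches can be exponentially longer than public-coin one-way protocols for
the XOR function.

The inputs have `s m` address bits `u (c, a)` and `m ^ s` data bits `v T`, one for each tuple
`T : Fin s → Fin m`, with `m` bounded and `s = (d + 1) 2 ^ b - 1`. Let `i` be the number of `c`
with `u (c, T c) = 1`. The function is the OR of the data bits `v T` over the tuples `T` with
`∏ j, (i - s + j 2 ^ b) ≠ 0` in `F_p`, `j = 1, …, d`. Alice sends her address bits and a random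
`F_p`-linear sketch with `(s m + 1) ^ d` entries. A randomized `F_2`-linear sketch needs
`m ^ (d 2 ^ b) / (3 * 2 ^ s)` parities, by a rank argument for the Hadamard product with the
matrix of the binomial coefficients `choose i (2 ^ b - 1)` modulo 2. Unused bits fill up the length.
-/

namespace Pool.Agent.Results.MP_ed2356_lc.ExponentialGap

open Finset

/-- Randomized linear sketch complexity: the least `k` for which there are a probability
distribution `μ` on `k`-tuples of subsets of `[n]` and a recovery rule `g` that is correct with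
probability at least `2 / 3` on every input. -/
noncomputable def Rlin {n : ℕ} (f : (Fin n → ZMod 2) → Bool) : ℕ :=
  sInf {k : ℕ | ∃ (μ : (Fin k → Finset (Fin n)) → ℝ)
      (g : (Fin k → Finset (Fin n)) → (Fin k → ZMod 2) → Bool),
      (∀ S, 0 ≤ μ S) ∧ ∑ S, μ S = 1 ∧
      ∀ x, (2 / 3 : ℝ) ≤ ∑ S, if g S (fun i => ∑ j ∈ S i, x j) = f x then μ S else 0}

/-- Public-coin one-way communication complexity: the least `c` for which there are a finite
probability space of public coins `ω`, messages `a ω x` of `c` bits from Alice and outputs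
`b ω msg y` of Bob, correct with probability at least `2 / 3` on every input. -/
noncomputable def Rone {X Y : Type} (F : X → Y → Bool) : ℕ :=
  sInf {c : ℕ | ∃ (Ω : Type) (_ : Fintype Ω) (μ : Ω → ℝ) (a : Ω → X → (Fin c → Bool))
      (b : Ω → (Fin c → Bool) → Y → Bool),
      (∀ ω, 0 ≤ μ ω) ∧ ∑ ω, μ ω = 1 ∧
      ∀ x y, (2 / 3 : ℝ) ≤ ∑ ω, if b ω (a ω x) y = F x y then μ ω else 0}

/-- A protocol with uniform coins and messages from a small finite set. -/
theorem Rone_le {X Y Ω M : Type} [Fintype Ω] [Nonempty Ω] [Fintype M] [Nonempty M]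
    (F : X → Y → Bool) (c : ℕ) (hM : Fintype.card M ≤ 2 ^ c)
    (a : Ω → X → M) (b : Ω → M → Y → Bool)
    (h : ∀ x y, 2 * Fintype.card Ω ≤ 3 * (univ.filter (fun ω => b ω (a ω x) y = F x y)).card) :
    Rone F ≤ c := by
  classical
  have hc : Fintype.card M ≤ Fintype.card (Fin c → Bool) := by simpa using hM
  obtain ⟨enc⟩ := Function.Embedding.nonempty_of_card_le hc
  have hpos : (0 : ℝ) < Fintype.card Ω := by exact_mod_cast Fintype.card_pos
  apply Nat.sInf_le
  refine ⟨Ω, inferInstance, fun _ => 1 / (Fintype.card Ω : ℝ), fun ω x => enc (a ω x),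
    fun ω msg y => b ω (Function.invFun enc msg) y, fun _ => by positivity, ?_, ?_⟩
  · simp only [Finset.sum_const, Finset.card_univ, nsmul_eq_mul]
    field_simp
  · intro x y
    have hl : ∀ ω, Function.invFun enc (enc (a ω x)) = a ω x := fun ω =>
      Function.leftInverse_invFun enc.injective _
    simp only [hl]
    rw [← Finset.sum_filter, Finset.sum_const, nsmul_eq_mul]
    have h1 : (2 * Fintype.card Ω : ℝ) ≤
        3 * ((univ.filter (fun ω => b ω (a ω x) y = F x y)).card : ℝ) := by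
      exact_mod_cast h x y
    rw [mul_one_div, le_div_iff₀ hpos]
    linarith

/-- A nonzero linear form over `F_p`, `p ≥ 3`, is nonzero at two thirds of the points. -/
theorem count_nonzero {V : Type} [Fintype V] [DecidableEq V] {p : ℕ} [Fact p.Prime] (hp : 3 ≤ p)
    (d : V → ZMod p) (T₀ : V) (h : d T₀ ≠ 0) :
    2 * Fintype.card (V → ZMod p) ≤
      3 * (univ.filter (fun s : V → ZMod p => ∑ T, s T * d T ≠ 0)).card := by
  classical
  let φ : (V → ZMod p) →+ ZMod p :=
    { toFun := fun s => ∑ T, s T * d T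
      map_zero' := by simp
      map_add' := by intro s t; simp [add_mul, Finset.sum_add_distrib] }
  have hsurj : ∀ t : ZMod p, t ∈ Set.range φ := by
    intro t
    refine ⟨Pi.single T₀ (t / d T₀), ?_⟩
    simp only [φ, AddMonoidHom.coe_mk, ZeroHom.coe_mk, Pi.single_apply, ite_mul, zero_mul,
      Finset.sum_ite_eq', Finset.mem_univ, if_true]
    field_simp
  have hfib : ∀ t : ZMod p, (univ.filter (fun s => φ s = t)).card
      = (univ.filter (fun s => φ s = 0)).card := fun t =>
    AddMonoidHom.card_fiber_eq_of_mem_range φ (hsurj t) (hsurj 0)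
  have htot : Fintype.card (V → ZMod p) = ∑ t : ZMod p, (univ.filter (fun s => φ s = t)).card := by
    rw [← Finset.card_univ]
    exact Finset.card_eq_sum_card_fiberwise (fun _ _ => Finset.mem_univ _)
  simp only [hfib, Finset.sum_const, Finset.card_univ, ZMod.card, smul_eq_mul] at htot
  have hsplit := Finset.card_filter_add_card_filter_not (s := (univ : Finset (V → ZMod p)))
    (fun s => φ s = 0)
  rw [Finset.card_univ] at hsplit
  have : (univ.filter (fun s : V → ZMod p => ∑ T, s T * d T ≠ 0))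
      = univ.filter (fun s => ¬ φ s = 0) := rfl
  rw [this]
  have h3 := Nat.mul_le_mul_right (univ.filter (fun s => φ s = 0)).card hp
  omega

/-- A bit read in `F_p`. -/
def lift (p : ℕ) (x : ZMod 2) : ZMod p := if x = 1 then 1 else 0

/-- The addressed OR function of a matrix over `F_p`. -/
def sep {A V : Type} [Fintype V] {p : ℕ} (ent : (A → ZMod 2) → V → ZMod p)
    (z : A ⊕ V → ZMod 2) : Bool :=
  decide (∃ T, z (Sum.inr T) ≠ 0 ∧ ent (fun q => z (Sum.inl q)) T ≠ 0)

theorem lift_sub_ne {p : ℕ} [Fact p.Prime] (x y : ZMod 2) :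
    lift p x - lift p y ≠ 0 ↔ x + y ≠ 0 := by
  have h : ∀ z : ZMod 2, z = 0 ∨ z = 1 := by decide
  have h11 : (1 : ZMod 2) + 1 = 0 := by decide
  rcases h x with rfl | rfl <;> rcases h y with rfl | rfl <;> simp [lift, h11]

theorem upper {A V W : Type} [Fintype A] [DecidableEq A] [Fintype V] [DecidableEq V] [Fintype W]
    [DecidableEq W] {p n : ℕ} [Fact p.Prime] (hp : 3 ≤ p) (ent : (A → ZMod 2) → V → ZMod p)
    (α : (A → ZMod 2) → W → ZMod p) (β : V → W → ZMod p)
    (hent : ∀ u T, ent u T = ∑ w, α u w * β T w) (e : A ⊕ V → Fin n) :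
    Rone (fun x y : Fin n → ZMod 2 => sep ent ((x + y) ∘ e))
      ≤ Fintype.card A + p * Fintype.card W := by
  classical
  refine Rone_le (Ω := V → ZMod p) (M := (A → ZMod 2) × (W → ZMod p)) _ _ ?_
    (fun s x => (fun q => x (e (Sum.inl q)),
      fun w => ∑ T, s T * lift p (x (e (Sum.inr T))) * β T w))
    (fun s msg y => decide (∑ w, α (fun q => msg.1 q + y (e (Sum.inl q))) w * msg.2 w
      - ∑ T, s T * lift p (y (e (Sum.inr T))) * ent (fun q => msg.1 q + y (e (Sum.inl q))) T ≠ 0))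
    ?_
  · simp only [Fintype.card_prod, Fintype.card_pi, ZMod.card, Finset.prod_const,
      Finset.card_univ]
    rw [pow_add, pow_mul]
    exact Nat.mul_le_mul_left _ (Nat.pow_le_pow_left Nat.lt_two_pow_self.le _)
  · intro x y
    set u : A → ZMod 2 := fun q => x (e (Sum.inl q)) + y (e (Sum.inl q)) with hu
    set d : V → ZMod p :=
      fun T => (lift p (x (e (Sum.inr T))) - lift p (y (e (Sum.inr T)))) * ent u T with hd
    have key : ∀ s : V → ZMod p,
        ∑ w, α u w * (∑ T, s T * lift p (x (e (Sum.inr T))) * β T w)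
          - ∑ T, s T * lift p (y (e (Sum.inr T))) * ent u T = ∑ T, s T * d T := by
      intro s
      have h1 : ∑ w, α u w * (∑ T, s T * lift p (x (e (Sum.inr T))) * β T w)
          = ∑ T, s T * lift p (x (e (Sum.inr T))) * ent u T := by
        simp only [hent, Finset.mul_sum]
        rw [Finset.sum_comm]
        refine Finset.sum_congr rfl (fun T _ => Finset.sum_congr rfl (fun w _ => ?_))
        ring
      rw [h1, ← Finset.sum_sub_distrib]
      refine Finset.sum_congr rfl (fun T _ => ?_)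
      simp only [hd]
      ring
    have hsep : sep ent ((x + y) ∘ e) = decide (∃ T, d T ≠ 0) := by
      simp only [sep, Function.comp, Pi.add_apply, hd, mul_ne_zero_iff, lift_sub_ne]
      rfl
    have hfil : (univ.filter (fun s : V → ZMod p =>
        decide (∑ w, α u w * (∑ T, s T * lift p (x (e (Sum.inr T))) * β T w)
          - ∑ T, s T * lift p (y (e (Sum.inr T))) * ent u T ≠ 0) = sep ent ((x + y) ∘ e)))
        = univ.filter (fun s : V → ZMod p =>
          decide (∑ T, s T * d T ≠ 0) = decide (∃ T, d T ≠ 0)) := by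
      simp only [key, hsep]
    refine le_of_le_of_eq ?_ (congrArg (fun t => 3 * t.card) hfil).symm
    by_cases hex : ∃ T, d T ≠ 0
    · obtain ⟨T₀, hT₀⟩ := id hex
      have := count_nonzero hp d T₀ hT₀
      simpa [hex] using this
    · have h0 : ∀ T, d T = 0 := by simpa using hex
      rw [Finset.filter_true_of_mem (by intro s _; simp [h0]), Finset.card_univ]
      omega

section Lower

variable {A V W : Type} [Fintype A] [Fintype V] [DecidableEq V] [Fintype W] {p : ℕ}
  (ent : (A → ZMod 2) → V → ZMod p) (addr : V → A → ZMod 2)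

/-- The data bits that the hard distribution may switch on for the address `a`. -/
def InD (a T : V) : Prop := T = a ∨ ent (addr a) T = 0

instance (a T : V) : Decidable (InD ent addr a T) := by
  unfold InD; infer_instance

/-- The hard inputs. -/
def inp (a : V) (v : V → ZMod 2) : A ⊕ V → ZMod 2 :=
  Sum.elim (addr a) (fun T => if InD ent addr a T then v T else 0)

omit [Fintype A] in
theorem sep_inp (hself : ∀ a, ent (addr a) a ≠ 0) (a : V) (v : V → ZMod 2) :
    sep ent (inp ent addr a v) = decide (v a ≠ 0) := by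
  have hu : (fun q => inp ent addr a v (Sum.inl q)) = addr a := rfl
  simp only [sep, hu, decide_eq_decide]
  constructor
  · rintro ⟨T, h1, h2⟩
    simp only [inp, Sum.elim_inr] at h1
    by_cases hD : InD ent addr a T
    · rcases hD with rfl | hD
      · simpa [InD] using h1
      · exact absurd hD h2
    · simp [hD] at h1
  · intro h
    exact ⟨a, by simpa [inp, InD] using h, hself a⟩

/-- The sketch determines the addressed bit. -/
def Good {k : ℕ} (b : Fin k → V → ZMod 2) (a : V) : Prop :=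
  ¬ ∃ δ : V → ZMod 2, δ a ≠ 0 ∧ (∀ T, ¬ InD ent addr a T → δ T = 0) ∧
    ∀ i, ∑ T, b i T * δ T = 0

omit [Fintype A] in
open Classical in
theorem good_card (φ ψ : V → W → ZMod 2) (h1 : ∀ a, ∑ w, φ a w * ψ a w = 1)
    (h0 : ∀ a T, ¬ InD ent addr a T → ∑ w, φ a w * ψ T w = 0) {k : ℕ}
    (b : Fin k → V → ZMod 2) :
    (univ.filter (Good ent addr b)).card ≤ k * Fintype.card W := by
  let β : (univ.filter (Good ent addr b)) → (Fin k × W → ZMod 2) :=
    fun T q => b q.1 T.1 * ψ T.1 q.2
  have hli : LinearIndependent (ZMod 2) β := by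
    rw [Fintype.linearIndependent_iff]
    intro g hg a
    by_contra hne
    have hgood : Good ent addr b a.1 := (Finset.mem_filter.mp a.2).2
    apply hgood
    let g' : V → ZMod 2 :=
      fun T => if h : T ∈ univ.filter (Good ent addr b) then g ⟨T, h⟩ else 0
    refine ⟨fun T => g' T * ∑ w, φ a.1 w * ψ T w, ?_, ?_, ?_⟩
    · have h3 : g' a.1 = g a := by simp only [g', a.2, dif_pos]
      show g' a.1 * (∑ w, φ a.1 w * ψ a.1 w) ≠ 0
      rw [h3, h1, mul_one]
      exact hne
    · intro T hT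
      simp only [h0 _ _ hT, mul_zero]
    · intro i
      have h3 : ∀ w : W, ∑ T, g' T * (b i T * ψ T w) = 0 := by
        intro w
        have h2 := congrFun hg (i, w)
        simp only [Finset.sum_apply, Pi.smul_apply, smul_eq_mul, β, Pi.zero_apply] at h2
        refine Eq.trans ?_ h2
        rw [← Finset.sum_subset (Finset.subset_univ (univ.filter (Good ent addr b)))]
        · rw [← Finset.sum_coe_sort]
          refine Finset.sum_congr rfl (fun T _ => ?_)
          simp only [g', T.2, dif_pos]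
        · intro T _ hT
          simp only [g', hT, dif_neg, not_false_eq_true, zero_mul]
      calc ∑ T, b i T * (g' T * ∑ w, φ a.1 w * ψ T w)
          = ∑ T, ∑ w, φ a.1 w * (g' T * (b i T * ψ T w)) := by
            refine Finset.sum_congr rfl (fun T _ => ?_)
            simp only [Finset.mul_sum]
            refine Finset.sum_congr rfl (fun w _ => ?_)
            ring
        _ = ∑ w, ∑ T, φ a.1 w * (g' T * (b i T * ψ T w)) := Finset.sum_comm
        _ = 0 := by simp only [← Finset.mul_sum, h3, mul_zero, Finset.sum_const_zero]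
  have := hli.fintype_card_le_finrank
  rw [Fintype.card_coe] at this
  simpa using this

theorem half_count {k n : ℕ} (e : A ⊕ V ≃ Fin n) (S : Fin k → Finset (Fin n))
    (g : (Fin k → ZMod 2) → Bool) (a : V)
    (h : ¬ Good ent addr (fun i T => if e (Sum.inr T) ∈ S i then 1 else 0) a) :
    2 * (univ.filter (fun v : V → ZMod 2 =>
      g (fun i => ∑ j ∈ S i, inp ent addr a v (e.symm j)) = decide (v a ≠ 0))).card
      ≤ Fintype.card (V → ZMod 2) := by
  classical
  obtain ⟨δ, h1, h2, h3⟩ := not_not.mp h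
  have hsk : ∀ v : V → ZMod 2,
      (fun i => ∑ j ∈ S i, inp ent addr a (v + δ) (e.symm j))
        = fun i => ∑ j ∈ S i, inp ent addr a v (e.symm j) := by
    intro v
    funext i
    have hadd : ∀ t, inp ent addr a (v + δ) t
        = inp ent addr a v t + Sum.elim (fun _ => 0) δ t := by
      rintro (q | T)
      · simp [inp]
      · by_cases hD : InD ent addr a T
        · simp [inp, hD]
        · simp [inp, hD, h2 T hD]
    simp only [hadd, Finset.sum_add_distrib, add_eq_left]
    have h4 : ∑ j ∈ S i, Sum.elim (fun _ => (0 : ZMod 2)) δ (e.symm j)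
        = ∑ t : A ⊕ V, if e t ∈ S i then Sum.elim (fun _ => (0 : ZMod 2)) δ t else 0 := by
      rw [← Equiv.sum_comp e.symm]
      simp [Finset.sum_ite_mem]
    rw [h4, Fintype.sum_sum_type]
    have h5 := h3 i
    simp only [ite_mul, one_mul, zero_mul] at h5
    simp [h5]
  have hsplit := Finset.card_filter_add_card_filter_not
    (s := (univ : Finset (V → ZMod 2)))
    (fun v => g (fun i => ∑ j ∈ S i, inp ent addr a v (e.symm j)) = decide (v a ≠ 0))
  rw [Finset.card_univ] at hsplit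
  have hle : (univ.filter (fun v : V → ZMod 2 =>
      g (fun i => ∑ j ∈ S i, inp ent addr a v (e.symm j)) = decide (v a ≠ 0))).card
      ≤ (univ.filter (fun v : V → ZMod 2 =>
      ¬ g (fun i => ∑ j ∈ S i, inp ent addr a v (e.symm j)) = decide (v a ≠ 0))).card := by
    refine Finset.card_le_card_of_injOn (fun v => v + δ) ?_ ?_
    · intro v hv
      simp only [Finset.coe_filter, Finset.mem_univ, true_and, Set.mem_ofPred_eq] at hv ⊢
      rw [hsk v, hv, Pi.add_apply]
      have : ∀ x y : ZMod 2, y ≠ 0 → ¬ decide (x ≠ 0) = decide (x + y ≠ 0) := by decide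
      exact this _ _ h1
    · intro v _ w _ hvw
      exact add_right_cancel hvw
  omega

theorem sketch_count (φ ψ : V → W → ZMod 2) (h1' : ∀ a, ∑ w, φ a w * ψ a w = 1)
    (h0 : ∀ a T, ¬ InD ent addr a T → ∑ w, φ a w * ψ T w = 0) {k n : ℕ}
    (e : A ⊕ V ≃ Fin n) (S : Fin k → Finset (Fin n)) (g : (Fin k → ZMod 2) → Bool) :
    2 * ∑ a : V, (univ.filter (fun v : V → ZMod 2 =>
      g (fun i => ∑ j ∈ S i, inp ent addr a v (e.symm j)) = decide (v a ≠ 0))).card
      ≤ Fintype.card (V → ZMod 2) * (Fintype.card V + k * Fintype.card W) := by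
  classical
  set b : Fin k → V → ZMod 2 := fun i T => if e (Sum.inr T) ∈ S i then 1 else 0
  set N := Fintype.card (V → ZMod 2) with hN
  have h1 : ∀ a : V, 2 * (univ.filter (fun v : V → ZMod 2 =>
      g (fun i => ∑ j ∈ S i, inp ent addr a v (e.symm j)) = decide (v a ≠ 0))).card
      ≤ N * (1 + if Good ent addr b a then 1 else 0) := by
    intro a
    by_cases hg : Good ent addr b a
    · have := Finset.card_le_univ (univ.filter (fun v : V → ZMod 2 =>
        g (fun i => ∑ j ∈ S i, inp ent addr a v (e.symm j)) = decide (v a ≠ 0)))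
      simp only [hg, if_true]
      omega
    · have := half_count ent addr e S g a hg
      simp only [hg, if_false]
      omega
  rw [Finset.mul_sum]
  refine (Finset.sum_le_sum (fun a _ => h1 a)).trans ?_
  rw [← Finset.mul_sum, Finset.sum_add_distrib]
  apply Nat.mul_le_mul_left
  have h2 := good_card ent addr φ ψ h1' h0 b
  rw [Finset.card_filter] at h2
  simp only [Finset.sum_const, Finset.card_univ, smul_eq_mul, mul_one]
  exact Nat.add_le_add_left h2 _

theorem lower (hself : ∀ a, ent (addr a) a ≠ 0) (φ ψ : V → W → ZMod 2)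
    (h1' : ∀ a, ∑ w, φ a w * ψ a w = 1)
    (h0 : ∀ a T, ¬ InD ent addr a T → ∑ w, φ a w * ψ T w = 0) {n : ℕ} (e : A ⊕ V ≃ Fin n) :
    Fintype.card V ≤ 3 * (Rlin (fun x : Fin n → ZMod 2 => sep ent (x ∘ e)) * Fintype.card W) := by
  classical
  set f : (Fin n → ZMod 2) → Bool := fun x => sep ent (x ∘ e) with hf
  have hne : {k : ℕ | ∃ (μ : (Fin k → Finset (Fin n)) → ℝ)
      (g : (Fin k → Finset (Fin n)) → (Fin k → ZMod 2) → Bool),
      (∀ S, 0 ≤ μ S) ∧ ∑ S, μ S = 1 ∧
      ∀ x, (2 / 3 : ℝ) ≤ ∑ S, if g S (fun i => ∑ j ∈ S i, x j) = f x then μ S else 0}.Nonempty := by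
    refine ⟨n, fun S => if S = fun i => {i} then 1 else 0, fun _ v => f v, ?_, ?_, ?_⟩
    · intro S; dsimp only; split_ifs <;> norm_num
    · simp
    · intro x
      rw [Finset.sum_eq_single (fun i => {i})]
      · simp; norm_num
      · intro S _ hS; simp [hS]
      · simp
  obtain ⟨μ, g, hμ0, hμ1, hμ⟩ := Nat.sInf_mem hne
  change Fintype.card V ≤ 3 * (sInf _ * Fintype.card W)
  generalize sInf {k : ℕ | ∃ (μ : (Fin k → Finset (Fin n)) → ℝ)
      (g : (Fin k → Finset (Fin n)) → (Fin k → ZMod 2) → Bool),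
      (∀ S, 0 ≤ μ S) ∧ ∑ S, μ S = 1 ∧
      ∀ x, (2 / 3 : ℝ) ≤ ∑ S, if g S (fun i => ∑ j ∈ S i, x j) = f x then μ S else 0} = k
      at μ g hμ0 hμ1 hμ ⊢
  set N := Fintype.card (V → ZMod 2) with hN
  have hNpos : (0 : ℝ) < N := by exact_mod_cast Fintype.card_pos
  have hfi : ∀ a v, f (inp ent addr a v ∘ e.symm) = decide (v a ≠ 0) := by
    intro a v
    rw [← sep_inp ent addr hself]
    simp only [hf]
    congr 1
    funext t
    simp
  have h1 : ∑ a : V, ∑ v : V → ZMod 2, (2 / 3 : ℝ)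
      ≤ ∑ a : V, ∑ v : V → ZMod 2, ∑ S,
        if g S (fun i => ∑ j ∈ S i, inp ent addr a v (e.symm j)) = decide (v a ≠ 0)
          then μ S else 0 := by
    refine Finset.sum_le_sum (fun a _ => Finset.sum_le_sum (fun v _ => ?_))
    have := hμ (inp ent addr a v ∘ e.symm)
    rw [hfi] at this
    exact this
  have h2 : ∑ a : V, ∑ v : V → ZMod 2, ∑ S,
        (if g S (fun i => ∑ j ∈ S i, inp ent addr a v (e.symm j)) = decide (v a ≠ 0)
          then μ S else 0)
      = ∑ S, μ S * ((∑ a : V, (univ.filter (fun v : V → ZMod 2 =>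
        g S (fun i => ∑ j ∈ S i, inp ent addr a v (e.symm j)) = decide (v a ≠ 0))).card : ℕ) : ℝ) := by
    simp only [Nat.cast_sum, Finset.mul_sum]
    conv_rhs => rw [Finset.sum_comm]
    refine Finset.sum_congr rfl (fun a _ => ?_)
    rw [Finset.sum_comm]
    refine Finset.sum_congr rfl (fun S _ => ?_)
    rw [← Finset.sum_filter, Finset.sum_const, nsmul_eq_mul, mul_comm]
  have h3 : ∑ S, μ S * ((∑ a : V, (univ.filter (fun v : V → ZMod 2 =>
        g S (fun i => ∑ j ∈ S i, inp ent addr a v (e.symm j)) = decide (v a ≠ 0))).card : ℕ) : ℝ)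
      ≤ ∑ S, μ S * ((N : ℝ) * (Fintype.card V + k * Fintype.card W) / 2) := by
    refine Finset.sum_le_sum (fun S _ => mul_le_mul_of_nonneg_left ?_ (hμ0 S))
    have := sketch_count ent addr φ ψ h1' h0 e S (g S)
    have h4 : (2 : ℝ) * ((∑ a : V, (univ.filter (fun v : V → ZMod 2 =>
        g S (fun i => ∑ j ∈ S i, inp ent addr a v (e.symm j)) = decide (v a ≠ 0))).card : ℕ) : ℝ)
        ≤ (N : ℝ) * (Fintype.card V + k * Fintype.card W) := by exact_mod_cast this
    linarith
  rw [← Finset.sum_mul, hμ1, one_mul] at h3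
  rw [h2] at h1
  simp only [Finset.sum_const, Finset.card_univ, nsmul_eq_mul, ← hN] at h1
  have h5 := h1.trans h3
  have h6 : (N : ℝ) * Fintype.card V ≤ (N : ℝ) * (3 * (k * Fintype.card W)) := by nlinarith
  have h7 : (Fintype.card V : ℝ) ≤ 3 * (k * Fintype.card W) := le_of_mul_le_mul_left h6 hNpos
  exact_mod_cast h7

end Lower

/-- Lucas: `choose k (2 ^ b - 1)` is odd exactly when `k ≡ -1` modulo `2 ^ b`. -/
theorem choose_odd (b : ℕ) : ∀ k : ℕ, (k.choose (2 ^ b - 1)) % 2 = 1 ↔ 2 ^ b ∣ k + 1 := by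
  induction b with
  | zero => intro k; simp
  | succ b ih =>
    intro k
    have : Fact (Nat.Prime 2) := ⟨Nat.prime_two⟩
    have hL := Choose.choose_modEq_choose_mod_mul_choose_div_nat (n := k)
      (k := 2 ^ (b + 1) - 1) (p := 2)
    have hpos : 1 ≤ 2 ^ b := Nat.one_le_two_pow
    have h1 : (2 ^ (b + 1) - 1) % 2 = 1 := by rw [pow_succ]; omega
    have h2 : (2 ^ (b + 1) - 1) / 2 = 2 ^ b - 1 := by rw [pow_succ]; omega
    rw [h1, h2, Nat.choose_one_right] at hL
    unfold Nat.ModEq at hL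
    rw [hL]
    rcases Nat.mod_two_eq_zero_or_one k with hk | hk
    · rw [hk]
      constructor
      · intro h; simp at h
      · intro h
        have : 2 ∣ k + 1 := Dvd.dvd.trans ⟨2 ^ b, by rw [pow_succ]; ring⟩ h
        omega
    · rw [hk, one_mul, ih]
      have h3 : k + 1 = (k / 2 + 1) * 2 := by omega
      rw [h3, pow_succ]
      exact (Nat.mul_dvd_mul_iff_right (by norm_num)).symm

/-- The address bits of a tuple. -/
def addr {s m : ℕ} (a : Fin s → Fin m) : Fin s × Fin m → ZMod 2 :=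
  fun q => if a q.1 = q.2 then 1 else 0

/-- The entry of the `F_p` matrix. -/
def ent (p d B : ℕ) {s m : ℕ} (u : Fin s × Fin m → ZMod 2) (T : Fin s → Fin m) : ZMod p :=
  ∏ j : Fin d, (∑ c, lift p (u (c, T c)) - (s : ZMod p) + ((j.1 + 1) * B : ℕ))

theorem ent_factor (p d B : ℕ) {s m : ℕ} (u : Fin s × Fin m → ZMod 2) (T : Fin s → Fin m) :
    ent p d B u T = ∑ w : Fin d → Option (Fin s × Fin m),
      (∏ j : Fin d, (w j).elim (-(s : ZMod p) + ((j.1 + 1) * B : ℕ)) (fun q => lift p (u q)))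
        * ∏ j : Fin d, (w j).elim (1 : ZMod p) (fun q => if T q.1 = q.2 then 1 else 0) := by
  simp only [← Finset.prod_mul_distrib]
  rw [← Fintype.piFinset_univ, ← Finset.prod_univ_sum (fun _ => univ)
    (fun (j : Fin d) (o : Option (Fin s × Fin m)) =>
      o.elim (-(s : ZMod p) + ((j.1 + 1) * B : ℕ)) (fun q => lift p (u q))
        * o.elim (1 : ZMod p) (fun q => if T q.1 = q.2 then 1 else 0))]
  refine Finset.prod_congr rfl (fun j _ => ?_)
  rw [Fintype.sum_option, Fintype.sum_prod_type]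
  simp only [Option.elim, mul_ite, mul_one, mul_zero, Finset.sum_ite_eq, Finset.mem_univ, if_true]
  ring

theorem ent_addr (p d B : ℕ) {s m : ℕ} (a T : Fin s → Fin m) :
    ent p d B (addr a) T = ∏ j : Fin d,
      ((((univ.filter (fun c => a c = T c)).card : ℕ) : ZMod p) - (s : ZMod p)
        + ((j.1 + 1) * B : ℕ)) := by
  refine Finset.prod_congr rfl (fun j _ => ?_)
  congr 2
  rw [Finset.card_filter]
  push_cast
  refine Finset.sum_congr rfl (fun c _ => ?_)
  by_cases h : a c = T c <;> simp [lift, addr, h]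

theorem ent_self {p d b : ℕ} [Fact p.Prime] (hp : 3 ≤ p) (hd : d < p) {s m : ℕ}
    (a : Fin s → Fin m) : ent p d (2 ^ b) (addr a) a ≠ 0 := by
  rw [ent_addr, Finset.prod_ne_zero_iff]
  intro j _
  simp only [Finset.filter_true, Finset.card_univ, Fintype.card_fin, sub_self, zero_add, ne_eq,
    ZMod.natCast_eq_zero_iff]
  intro h
  rcases (Nat.Prime.dvd_mul Fact.out).mp h with h | h
  · have := Nat.le_of_dvd (by omega) h
    have := j.2
    omega
  · have := Nat.le_of_dvd (by norm_num) (Nat.Prime.dvd_of_dvd_pow Fact.out h)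
    omega

/-- The rank-one pieces of the `F_2` matrix: a set of `D` positions and values on it. -/
def piece {s m : ℕ} (D : ℕ) (a : Fin s → Fin m) (w : Finset (Fin s) × (Fin D → Fin m)) : ZMod 2 :=
  if h : w.1.card = D then (if (fun i => a (w.1.orderEmbOfFin h i)) = w.2 then 1 else 0) else 0

theorem piece_sum {s m : ℕ} (D : ℕ) (a T : Fin s → Fin m) :
    ∑ w, piece D a w * piece D T w
      = (((univ.filter (fun c => a c = T c)).card.choose D : ℕ) : ZMod 2) := by
  rw [Fintype.sum_prod_type, ← Finset.card_powersetCard]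
  have h1 : ∀ J : Finset (Fin s), ∑ v : Fin D → Fin m, piece D a (J, v) * piece D T (J, v)
      = if J ∈ powersetCard D (univ.filter (fun c => a c = T c)) then 1 else 0 := by
    intro J
    by_cases h : J.card = D
    · have hp : ∀ (x : Fin s → Fin m) (v : Fin D → Fin m), piece D x (J, v)
          = if (fun i => x (J.orderEmbOfFin h i)) = v then 1 else 0 := fun x v => dif_pos h
      simp only [hp, ite_mul, one_mul, zero_mul, Finset.sum_ite_eq,
        Finset.mem_univ, if_true, Finset.mem_powersetCard, h, and_true]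
      refine if_congr ?_ rfl rfl
      constructor
      · intro hT c hc
        have hc' : c ∈ Set.range (J.orderEmbOfFin h) := by
          rw [Finset.range_orderEmbOfFin]; exact hc
        obtain ⟨i, rfl⟩ := hc'
        simpa using (congrFun hT i).symm
      · intro hJ
        funext i
        have := hJ (Finset.orderEmbOfFin_mem J h i)
        simpa using (Finset.mem_filter.mp this).2.symm
    · simp [piece, h]
  simp only [h1]
  rw [Finset.sum_ite_mem, Finset.univ_inter]
  simp

theorem cast_two (x : ℕ) : ((x : ℕ) : ZMod 2) = 1 ↔ x % 2 = 1 := by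
  rw [← ZMod.natCast_mod x 2]
  rcases Nat.mod_two_eq_zero_or_one x with h | h <;> rw [h] <;> simp

/-- The entry of the `F_p` matrix, with `r` unused address bits. -/
def entP (p d B : ℕ) {s m r : ℕ} (u : (Fin s × Fin m) ⊕ Fin r → ZMod 2) (T : Fin s → Fin m) :
    ZMod p :=
  ent p d B (fun q => u (Sum.inl q)) T

theorem lower_concrete {p d b s m r n : ℕ} [Fact p.Prime] (hp : 3 ≤ p) (hd : d < p)
    (hs : s + 1 = (d + 1) * 2 ^ b)
    (e : ((Fin s × Fin m) ⊕ Fin r) ⊕ (Fin s → Fin m) ≃ Fin n) :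
    m ^ s ≤ 3 * (Rlin (fun x : Fin n → ZMod 2 => sep (entP p d (2 ^ b)) (x ∘ e))
      * (2 ^ s * m ^ (2 ^ b - 1))) := by
  have h := lower (entP p d (2 ^ b)) (fun a => Sum.elim (addr a) (fun _ => 0))
    (fun a => ent_self hp hd a) (piece (2 ^ b - 1)) (piece (2 ^ b - 1)) ?_ ?_ e
  · simpa using h
  · intro a
    rw [piece_sum, cast_two, choose_odd]
    simp only [Finset.filter_true, Finset.card_univ, Fintype.card_fin]
    exact ⟨d + 1, by rw [hs]; ring⟩
  · intro a T hD
    simp only [InD, not_or] at hD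
    obtain ⟨hT, hent⟩ := hD
    rw [piece_sum]
    by_contra hne
    have h01 : ∀ z : ZMod 2, z ≠ 0 → z = 1 := by decide
    have hodd := h01 _ hne
    rw [cast_two, choose_odd] at hodd
    obtain ⟨c, hc⟩ := hodd
    set k := (univ.filter (fun c => a c = T c)).card with hk
    have hlt : k < s := by
      have h1 : univ.filter (fun c => a c = T c) ⊂ univ := by
        rw [Finset.ssubset_univ_iff]
        intro h2
        apply hT
        funext c
        have : c ∈ univ.filter (fun c => a c = T c) := by rw [h2]; exact Finset.mem_univ c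
        exact (Finset.mem_filter.mp this).2.symm
      simpa using Finset.card_lt_card h1
    have hB : 0 < 2 ^ b := by positivity
    have hc0 : 0 < c := by
      rcases Nat.eq_zero_or_pos c with h0 | h0
      · rw [h0] at hc; omega
      · exact h0
    have hcd : c < d + 1 := by
      have : 2 ^ b * c < 2 ^ b * (d + 1) := by rw [← hc, mul_comm, ← hs]; omega
      exact Nat.lt_of_mul_lt_mul_left this
    apply hent
    show ent p d (2 ^ b) (addr a) T = 0
    rw [ent_addr]
    refine Finset.prod_eq_zero (Finset.mem_univ (⟨d - c, by omega⟩ : Fin d)) ?_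
    have h3 : k + (d - c + 1) * 2 ^ b = s := by
      have h4 : (d + 1) * 2 ^ b = (d - c + 1) * 2 ^ b + 2 ^ b * c := by
        rw [mul_comm (2 ^ b) c, ← add_mul]
        congr 1
        omega
      omega
    have h5 : (s : ZMod p) = (k : ZMod p) + (((d - c + 1) * 2 ^ b : ℕ) : ZMod p) := by
      rw [← Nat.cast_add, h3]
    rw [← hk, h5]
    ring

theorem upper_concrete {p d B s m r n : ℕ} [Fact p.Prime] (hp : 3 ≤ p)
    (e : ((Fin s × Fin m) ⊕ Fin r) ⊕ (Fin s → Fin m) ≃ Fin n) :
    Rone (fun x y : Fin n → ZMod 2 => sep (entP p d B) ((x + y) ∘ e))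
      ≤ s * m + p * (s * m + 1) ^ d := by
  have h := upper hp (ent p d B) _ _ (ent_factor p d B) (fun t => e (Sum.map Sum.inl id t))
  simp only [Fintype.card_prod, Fintype.card_fin, Fintype.card_pi, Fintype.card_option,
    Finset.prod_const, Finset.card_univ] at h
  exact h

/-- The choice of the parameters for a given length. -/
theorem params {d M n : ℕ} (hM : 2 ≤ M) (hn : M ^ (d + 1) ≤ n) :
    ∃ b m : ℕ, M ≤ m ∧ m ≤ M ^ 2 ∧ m ^ ((d + 1) * 2 ^ b) ≤ n ∧ n ≤ (2 * m) ^ ((d + 1) * 2 ^ b) := by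
  classical
  have hb : ∃ b : ℕ, n < M ^ ((d + 1) * 2 ^ (b + 1)) := by
    refine ⟨n, ?_⟩
    have h1 : n < 2 ^ (n + 1) := (Nat.lt_succ_self n).trans Nat.lt_two_pow_self
    have h2 : 2 ^ (n + 1) ≤ (d + 1) * 2 ^ (n + 1) := Nat.le_mul_of_pos_left _ (by omega)
    have h3 : (d + 1) * 2 ^ (n + 1) < M ^ ((d + 1) * 2 ^ (n + 1)) := Nat.lt_pow_self (by omega)
    omega
  have h1 := Nat.find_spec hb
  have h2 : M ^ ((d + 1) * 2 ^ Nat.find hb) ≤ n := by
    rcases Nat.eq_zero_or_pos (Nat.find hb) with h0 | h0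
    · rw [h0]; simpa using hn
    · have := Nat.find_min hb (m := Nat.find hb - 1) (by omega)
      rw [Nat.sub_add_cancel h0] at this
      omega
  set b := Nat.find hb
  set t := (d + 1) * 2 ^ b with ht
  have ht0 : t ≠ 0 := by positivity
  have h3 : n < (M ^ 2) ^ t := by
    rw [← pow_mul]
    have : (d + 1) * 2 ^ (b + 1) = 2 * t := by rw [ht]; ring
    rwa [this] at h1
  have hm : ∃ m : ℕ, n < (m + 1) ^ t := ⟨n, (Nat.lt_succ_self n).trans_le (Nat.le_self_pow ht0 _)⟩
  have h4 := Nat.find_spec hm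
  have h5 : Nat.find hm ^ t ≤ n := by
    rcases Nat.eq_zero_or_pos (Nat.find hm) with h0 | h0
    · rw [h0, zero_pow ht0]; omega
    · have := Nat.find_min hm (m := Nat.find hm - 1) (by omega)
      rw [Nat.sub_add_cancel h0] at this
      omega
  set m := Nat.find hm
  have h6 : M < m + 1 := lt_of_pow_lt_pow_left₀ t (by omega) (h2.trans_lt h4)
  have h7 : m < M ^ 2 := lt_of_pow_lt_pow_left₀ t (by positivity) (h5.trans_lt h3)
  exact ⟨b, m, by omega, h7.le, h5, h4.le.trans (Nat.pow_le_pow_left (by omega) t)⟩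

theorem gap (d : ℕ) (hd : 1 ≤ d) (ε : ℝ) (hε : 0 < ε) :
    ∃ (C : ℝ) (n₀ : ℕ), ∀ n : ℕ, n₀ ≤ n → ∃ f : (Fin n → ZMod 2) → Bool,
      (Rone (fun x y => f (x + y)) : ℝ) ≤ C * (Real.logb 2 n) ^ d ∧
      (n : ℝ) ^ ((d : ℝ) / (d + 1) - ε) ≤ (Rlin f : ℝ) := by
  obtain ⟨p, hpd, hp⟩ := Nat.exists_infinite_primes (d + 2)
  have : Fact p.Prime := ⟨hp⟩
  obtain ⟨M, hM⟩ := exists_nat_ge (max 2 ((8 : ℝ) ^ (1 / ε)))
  have hM2 : 2 ≤ M := by exact_mod_cast (le_max_left _ _).trans hM
  refine ⟨M ^ 2 + p * (2 * M ^ 2) ^ d, M ^ (d + 1), fun n hn => ?_⟩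
  obtain ⟨b, m, hMm, hmM, hmn, hnm⟩ := params hM2 hn
  have hm2' : 2 ≤ m := hM2.trans hMm
  have hm2 : (2 : ℝ) ≤ m := by exact_mod_cast hm2'
  have hm8 : (8 : ℝ) ≤ (m : ℝ) ^ ε := by
    have h0 : (M : ℝ) ≤ m := by exact_mod_cast hMm
    have h1 : ((8 : ℝ) ^ (1 / ε)) ^ ε ≤ (m : ℝ) ^ ε :=
      Real.rpow_le_rpow (by positivity) (((le_max_right _ _).trans hM).trans h0) hε.le
    rwa [← Real.rpow_mul (by norm_num), one_div_mul_cancel hε.ne', Real.rpow_one] at h1
  set B := 2 ^ b with hB
  have hB1 : 1 ≤ B := Nat.one_le_two_pow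
  obtain ⟨s, hs⟩ : ∃ s, s + 1 = (d + 1) * B := ⟨(d + 1) * B - 1, by
    have : 1 ≤ (d + 1) * B := Nat.mul_pos (by omega) (by omega)
    omega⟩
  rw [← hs] at hmn hnm
  have hs1 : 1 ≤ s := by nlinarith
  have h5 : s * m + m ^ s ≤ m ^ (s + 1) := by
    have h6 : s ≤ m ^ (s - 1) := by
      have h7 : s - 1 < 2 ^ (s - 1) := Nat.lt_two_pow_self
      have h8 : 2 ^ (s - 1) ≤ m ^ (s - 1) := Nat.pow_le_pow_left hm2' _
      omega
    have h9 : m ^ s = m ^ (s - 1) * m := by rw [← pow_succ]; congr 1; omega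
    have h10 : s * m ≤ m ^ s := by rw [h9]; exact Nat.mul_le_mul_right m h6
    have h11 := Nat.mul_le_mul_left (m ^ s) hm2'
    rw [pow_succ]
    omega
  have hcard : Fintype.card (((Fin s × Fin m) ⊕ Fin (n - (s * m + m ^ s))) ⊕ (Fin s → Fin m))
      = n := by
    simp only [Fintype.card_sum, Fintype.card_prod, Fintype.card_fin, Fintype.card_pi,
      Finset.prod_const, Finset.card_univ]
    omega
  let e : ((Fin s × Fin m) ⊕ Fin (n - (s * m + m ^ s))) ⊕ (Fin s → Fin m) ≃ Fin n :=
    Fintype.equivFinOfCardEq hcard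
  have hnpos : 1 ≤ n := le_trans (Nat.one_le_pow _ _ (by omega)) hmn
  have hn1 : (1 : ℝ) ≤ n := by exact_mod_cast hnpos
  refine ⟨fun x => sep (entP p d B) (x ∘ e), ?_, ?_⟩
  · have hu : (Rone (fun x y : Fin n → ZMod 2 => sep (entP p d B) ((x + y) ∘ e)) : ℝ)
        ≤ ((s * m + p * (s * m + 1) ^ d : ℕ) : ℝ) := by
      exact_mod_cast upper_concrete (by omega) e
    have h1 : s * m + p * (s * m + 1) ^ d ≤ (M ^ 2 + p * (2 * M ^ 2) ^ d) * s ^ d := by
      have h2 : s ≤ s ^ d := Nat.le_self_pow (by omega) s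
      have h3 : (s * m + 1) ^ d ≤ (2 * M ^ 2 * s) ^ d := Nat.pow_le_pow_left (by nlinarith) d
      rw [mul_pow (2 * M ^ 2) s] at h3
      have h4 := Nat.mul_le_mul_left p h3
      have h5 := Nat.mul_le_mul h2 hmM
      nlinarith
    have h6 : (s : ℝ) ≤ Real.logb 2 n := by
      rw [Real.le_logb_iff_rpow_le (by norm_num) (by linarith), Real.rpow_natCast]
      have h7 : 2 ^ s ≤ n :=
        ((Nat.pow_le_pow_left hm2' s).trans (Nat.pow_le_pow_right (by omega) (by omega))).trans hmn
      exact_mod_cast h7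
    calc _ ≤ ((s * m + p * (s * m + 1) ^ d : ℕ) : ℝ) := hu
      _ ≤ (((M ^ 2 + p * (2 * M ^ 2) ^ d) * s ^ d : ℕ) : ℝ) := by exact_mod_cast h1
      _ = (M ^ 2 + p * (2 * M ^ 2) ^ d) * (s : ℝ) ^ d := by push_cast; ring
      _ ≤ _ := by gcongr
  · have hl := lower_concrete (p := p) (d := d) (b := b) (by omega) (by omega) hs e
    rw [← hB] at hl
    generalize Rlin (fun x : Fin n → ZMod 2 => sep (entP p d B) (x ∘ e)) = k at hl ⊢
    have hsplit : s = d * B + (B - 1) := by
      have : (d + 1) * B = d * B + B := by ring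
      omega
    have h1 : m ^ (d * B) ≤ 4 ^ (s + 1) * k := by
      have h2 : m ^ (d * B) * m ^ (B - 1) ≤ (3 * 2 ^ s * k) * m ^ (B - 1) := by
        rw [← pow_add, ← hsplit]
        calc _ ≤ _ := hl
          _ = _ := by ring
      have h3 := Nat.le_of_mul_le_mul_right h2 (by positivity)
      have h4 : 3 * 2 ^ s ≤ 4 ^ (s + 1) := by
        have : 2 ^ s ≤ 4 ^ s := Nat.pow_le_pow_left (by norm_num) s
        rw [pow_succ]; omega
      exact h3.trans (Nat.mul_le_mul_right k h4)
    have hmpos : (0 : ℝ) < m := by linarith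
    have hk1 : (1 : ℝ) ≤ k := by
      have : 1 ≤ k := by
        rcases Nat.eq_zero_or_pos k with h0 | h0
        · rw [h0, mul_zero] at h1
          have : 0 < m ^ (d * B) := by positivity
          omega
        · exact h0
      exact_mod_cast this
    by_cases hexp : (d : ℝ) / (d + 1) - ε ≤ 0
    · exact (Real.rpow_le_one_of_one_le_of_nonpos hn1 hexp).trans hk1
    · have hexp' : 0 ≤ (d : ℝ) / (d + 1) - ε := (not_le.mp hexp).le
      have hexp1 : (d : ℝ) / (d + 1) - ε ≤ 1 := by
        have : (d : ℝ) / (d + 1) ≤ 1 := by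
          rw [div_le_one (by positivity)]; linarith
        linarith
      have h11 : (n : ℝ) ≤ (2 : ℝ) ^ (s + 1) * (m : ℝ) ^ (((s + 1 : ℕ) : ℝ)) := by
        rw [Real.rpow_natCast, ← mul_pow]; exact_mod_cast hnm
      have h12 : ((s + 1 : ℕ) : ℝ) * ((d : ℝ) / (d + 1) - ε)
          = ((d * B : ℕ) : ℝ) - ε * ((s + 1 : ℕ) : ℝ) := by
        have h13 : ((s + 1 : ℕ) : ℝ) = ((d : ℝ) + 1) * B := by rw [hs]; push_cast; ring
        rw [h13]
        push_cast
        field_simp
      have h14 : (8 : ℝ) ^ (s + 1) ≤ (m : ℝ) ^ (ε * ((s + 1 : ℕ) : ℝ)) := by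
        rw [Real.rpow_mul hmpos.le, Real.rpow_natCast]
        gcongr
      have h15 : (m : ℝ) ^ (d * B) ≤ 4 ^ (s + 1) * k := by exact_mod_cast h1
      have h16 : ((2 : ℝ) ^ (s + 1)) ^ ((d : ℝ) / (d + 1) - ε) ≤ (2 : ℝ) ^ (s + 1) :=
        Real.rpow_le_self_of_one_le (one_le_pow₀ (by norm_num)) hexp1
      have h17 : (8 : ℝ) ^ (s + 1) = 2 ^ (s + 1) * 4 ^ (s + 1) := by
        rw [← mul_pow]; norm_num
      calc _ ≤ ((2 : ℝ) ^ (s + 1) * (m : ℝ) ^ (((s + 1 : ℕ) : ℝ))) ^ ((d : ℝ) / (d + 1) - ε) :=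
            Real.rpow_le_rpow (by positivity) h11 hexp'
        _ = ((2 : ℝ) ^ (s + 1)) ^ ((d : ℝ) / (d + 1) - ε)
            * ((m : ℝ) ^ (d * B) / (m : ℝ) ^ (ε * ((s + 1 : ℕ) : ℝ))) := by
            rw [Real.mul_rpow (by positivity) (by positivity), ← Real.rpow_mul hmpos.le, h12,
              Real.rpow_sub hmpos, Real.rpow_natCast]
        _ ≤ (2 : ℝ) ^ (s + 1) * ((4 ^ (s + 1) * k) / (8 : ℝ) ^ (s + 1)) := by gcongr
        _ = k := by rw [h17]; field_simp

theorem beats (d : ℕ) (K C : ℝ) (hC : 0 < C) (n₀ : ℕ) : ∃ n : ℕ, n₀ ≤ n ∧ 1 ≤ n ∧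
    ∀ R : ℝ, 0 ≤ R → R ≤ K * (Real.logb 2 n) ^ d →
      C * (1 + Real.logb 2 n) ^ C * R < (n : ℝ) ^ (1 / 4 : ℝ) := by
  have hlo := (isLittleO_log_rpow_rpow_atTop (C + d) (s := 1 / 4) (by norm_num)).comp_tendsto
    tendsto_natCast_atTop_atTop
  set A := C * 3 ^ C * (|K| + 1) * 2 ^ d with hA
  have hApos : 0 < A := by positivity
  have hev := hlo.bound (c := 1 / (2 * A)) (by positivity)
  obtain ⟨n, ⟨hn, hn3⟩, hn0⟩ := ((hev.and (Filter.eventually_ge_atTop 3)).and
    (Filter.eventually_ge_atTop n₀)).exists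
  refine ⟨n, hn0, by omega, fun R hR h1 => ?_⟩
  have hn3' : (3 : ℝ) ≤ n := by exact_mod_cast hn3
  have hlog1 : 1 ≤ Real.log n := by
    rw [Real.le_log_iff_exp_le (by linarith)]
    have := Real.exp_one_lt_d9
    linarith
  have hl2 : (0.69 : ℝ) < Real.log 2 := by have := Real.log_two_gt_d9; linarith
  have hlogb : Real.logb 2 n ≤ 2 * Real.log n := by
    rw [Real.logb, div_le_iff₀ (by linarith)]; nlinarith
  have hlogb0 : 0 ≤ Real.logb 2 n := Real.logb_nonneg (by norm_num) (by linarith)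
  have hpow : (1 + Real.logb 2 n) ^ C ≤ 3 ^ C * Real.log n ^ C := by
    rw [← Real.mul_rpow (by norm_num) (by linarith)]
    exact Real.rpow_le_rpow (by linarith) (by linarith) hC.le
  simp only [Function.comp, Real.norm_eq_abs] at hn
  rw [abs_of_nonneg (by positivity), abs_of_nonneg (by positivity),
    Real.rpow_add (by linarith), Real.rpow_natCast] at hn
  have h3 : R ≤ (|K| + 1) * (2 * Real.log n) ^ d := by
    refine h1.trans ?_
    have h6 : K ≤ |K| + 1 := by have := le_abs_self K; linarith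
    calc K * (Real.logb 2 n) ^ d ≤ (|K| + 1) * (Real.logb 2 n) ^ d := by gcongr
      _ ≤ _ := by gcongr
  have h5 : (0 : ℝ) < (n : ℝ) ^ (1 / 4 : ℝ) := by positivity
  calc C * (1 + Real.logb 2 n) ^ C * R
      ≤ C * (3 ^ C * Real.log n ^ C) * ((|K| + 1) * (2 * Real.log n) ^ d) := by gcongr
    _ = A * (Real.log n ^ C * Real.log n ^ d) := by rw [hA, mul_pow]; ring
    _ ≤ A * (1 / (2 * A) * (n : ℝ) ^ (1 / 4 : ℝ)) := by gcongr
    _ = (n : ℝ) ^ (1 / 4 : ℝ) / 2 := by field_simp
    _ < (n : ℝ) ^ (1 / 4 : ℝ) := by linarith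

theorem result (d : ℕ) (hd : 1 ≤ d) (ε : ℝ) (hε : 0 < ε) :
    ∃ f : (n : ℕ) → (Fin n → ZMod 2) → Bool,
      (∃ (K : ℝ) (n₀ : ℕ), ∀ n : ℕ, n₀ ≤ n →
        (Rone (fun x y => f n (x + y)) : ℝ) ≤ K * (Real.logb 2 n) ^ d ∧
        (n : ℝ) ^ ((d : ℝ) / (d + 1) - ε) ≤ (Rlin (f n) : ℝ)) ∧
      ∀ C : ℝ, 0 < C → ∃ n : ℕ, 1 ≤ n ∧
        C * (1 + Real.logb 2 n) ^ C * (Rone (fun x y => f n (x + y)) : ℝ) < (Rlin (f n) : ℝ) := by
  obtain ⟨K, n₀, h⟩ := gap d hd (min ε (1 / 4)) (lt_min hε (by norm_num))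
  have h' : ∀ n : ℕ, ∃ f : (Fin n → ZMod 2) → Bool, n₀ ≤ n →
      (Rone (fun x y => f (x + y)) : ℝ) ≤ K * (Real.logb 2 n) ^ d ∧
      (n : ℝ) ^ ((d : ℝ) / (d + 1) - min ε (1 / 4)) ≤ (Rlin f : ℝ) := by
    intro n
    by_cases hn : n₀ ≤ n
    · obtain ⟨f, hf⟩ := h n hn
      exact ⟨f, fun _ => hf⟩
    · exact ⟨fun _ => true, fun h0 => absurd h0 hn⟩
  choose f hf using h'
  have hd' : (1 : ℝ) ≤ d := by exact_mod_cast hd
  refine ⟨f, ⟨K, n₀ + 1, fun n hn => ⟨(hf n (by omega)).1, le_trans ?_ (hf n (by omega)).2⟩⟩,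
    fun C hC => ?_⟩
  · have hn1 : (1 : ℝ) ≤ n := by exact_mod_cast (by omega : 1 ≤ n)
    exact Real.rpow_le_rpow_of_exponent_le hn1 (by have := min_le_left ε (1 / 4); linarith)
  · obtain ⟨n, h0, h1, h2⟩ := beats d K C hC n₀
    refine ⟨n, h1, (h2 _ (by positivity) (hf n h0).1).trans_le (le_trans ?_ (hf n h0).2)⟩
    have hn1 : (1 : ℝ) ≤ n := by exact_mod_cast h1
    have h3 : (1 : ℝ) / 2 ≤ (d : ℝ) / (d + 1) := by
      rw [div_le_div_iff₀ (by norm_num) (by linarith)]; linarith
    exact Real.rpow_le_rpow_of_exponent_le hn1 (by have := min_le_right ε (1 / 4); linarith)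

end Pool.Agent.Results.MP_ed2356_lc.ExponentialGap
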